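import Pool.Agent.T9h42.JA.UnifD

/-!
# The digits of `m √2`, `m² √2`, … and of other polynomials are asymptotically independent and normal

Let `f_1, …, f_r` be real polynomials whose leading coefficients are algebraic numbers such that the number 1 and the
leading coefficients of the polynomials of the same degree are linearly independent over the rational numbers, for
instance `f_k = m ^ k √2`.  The other coefficients are arbitrary real numbers.  Let `b_1, …, b_r ≥ 2` be bases, equal or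
not, and let `F_ρ` be a function of the words of `w_ρ` digits in base `b_ρ` whose sum over the words of a random real
number has positive limiting variance per place, for instance the indicator function of a digit.  Take the sums of
`F_ρ` over the words of `f_ρ (m)` at the places of windows of lengths `L_ρ` below the place `A log M`, where `A` is as
large as we like.  For one random `m < M` the `r` normalised sums are asymptotically independent and normally
distributed, when all `L_ρ → ∞`, uniformly in the windows and in the lower coefficients of the polynomials.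

In particular, for all real `x_1, …, x_r` the numbers of the decimal digits `d_1, …, d_r` in such windows of the
expansions of `x_1 + m √2, x_2 + m ^ 2 √2, …, x_r + m ^ r √2` are asymptotically independent and normal.

Proof.  A small value of the distance of `∑ h_i b_i ^ n_i α_i` from the integers with `h_i = M ^ o(1)` and
`n_i ≤ A log M` gives a linear relation by the subspace theorem, which removes a term
(`Pool/Agent/T9h42/JA/RelO.lean`, `FarA.lean`); so this distance is at least `M ^ (-1/2)`.  By the inverse theorem for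
Weyl sums the exponential sums of the polynomials are `O(M ^ (1 - c))` (`PolyT.lean`), and a bounded number of digits
of the numbers `f_ρ (m)` together is equidistributed with an error `O(M ^ (-c))`.  So all joint moments are those of
independent random real numbers, for which the central limit theorem is in `Pool/Agent/Y933/KD/Leb4.lean`
(helper933), and the theorem of Lévy applies (`Pool/Agent/T9h42/JB/JClt.lean`).  Author: helper42.
-/

set_option autoImplicit false

namespace Pool.Agent.Results.MP_175f55_nt.GaussianMultiples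

open Finset Real Polynomial

/-- the word of the `w` digits of `y` in base `b` at the places `j + 1, …, j + w` after the point, read as an integer
between `0` and `b ^ w - 1` -/
noncomputable def word (b w j : ℕ) (y : ℝ) : ℕ := (⌊y * (b : ℝ) ^ (j + w)⌋ % (b : ℤ) ^ w).toNat

/-- the `j`-th digit of `y` in base `b` after the point, `j ≥ 1` -/
noncomputable def digit (b j : ℕ) (y : ℝ) : ℤ := ⌊y * (b : ℝ) ^ j⌋ % b

/-- the sum of `F` over the words of `w` digits of `y` whose first digits stand at the places `t < j ≤ t + L` -/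
noncomputable def wordSum (b w : ℕ) (F : ℕ → ℝ) (t L : ℕ) (y : ℝ) : ℝ := ∑ j ∈ Ico t (t + L), F (word b w j y)

/-- the mean of `F` over the words of `w` digits -/
noncomputable def mean (b w : ℕ) (F : ℕ → ℝ) : ℝ := (∑ c ∈ range (b ^ w), F c) / (b : ℝ) ^ w

/-- the covariance of the values of `F` at the first `w` and at the last `w` digits of a random word of `w + h`
digits -/
noncomputable def covariance (b w : ℕ) (F : ℕ → ℝ) (h : ℕ) : ℝ :=
  (∑ c ∈ range (b ^ (w + h)), (F (c / b ^ h) - mean b w F) * (F (c % b ^ w) - mean b w F)) / (b : ℝ) ^ (w + h)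

/-- the limiting variance per place of the sum of `F` over the words of random digits -/
noncomputable def variance (b w : ℕ) (F : ℕ → ℝ) : ℝ :=
  covariance b w F 0 + 2 * ∑ h ∈ Ico 1 w, covariance b w F h

/-- the distribution function of the standard normal law -/
noncomputable def normal (a : ℝ) : ℝ := (ProbabilityTheory.gaussianReal 0 1).real (Set.Iic a)

/-- the normalised sum is at most `a` -/
def AtMost (b w : ℕ) (F : ℕ → ℝ) (t L : ℕ) (a : ℝ) (y : ℝ) : Prop :=
  wordSum b w F t L y - L * mean b w F ≤ a * √(variance b w F * L)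

/-- for every `d` the number 1 and the numbers `α ρ` with `K ρ = d` are linearly independent over the rational
numbers -/
def Independent {r : ℕ} (α : Fin r → ℝ) (K : Fin r → ℕ) : Prop :=
  ∀ (d : ℕ) (c : Fin r → ℤ) (z : ℤ), ∑ ρ with K ρ = d, (c ρ : ℝ) * α ρ = z → ∀ ρ, K ρ = d → c ρ = 0

lemma word_eq {b : ℕ} (hb : 1 ≤ b) (w j : ℕ) (y : ℝ) : word b w j y = Pool.Agent.Y933.KD.wd b w j y := by
  have hb0 : (0 : ℝ) < b := by exact_mod_cast hb
  have h1 : y * (b : ℝ) ^ (j + w) = (b : ℝ) ^ w * Int.fract ((b : ℝ) ^ j * y) +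
      (((b : ℤ) ^ w * ⌊(b : ℝ) ^ j * y⌋ : ℤ) : ℝ) := by
    have h2 := Int.floor_add_fract ((b : ℝ) ^ j * y)
    push_cast
    rw [pow_add]
    linear_combination -((b : ℝ) ^ w) * h2
  have h3 : (0 : ℝ) ≤ (b : ℝ) ^ w * Int.fract ((b : ℝ) ^ j * y) := mul_nonneg (by positivity) (Int.fract_nonneg _)
  have h4 : (b : ℝ) ^ w * Int.fract ((b : ℝ) ^ j * y) < ((b ^ w : ℕ) : ℝ) := by
    push_cast
    exact mul_lt_of_lt_one_right (by positivity) (Int.fract_lt_one _)
  unfold word Pool.Agent.Y933.KD.wd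
  rw [h1, Int.floor_add_intCast, Int.add_mul_emod_self_left, Int.emod_eq_of_lt]
  · rfl
  · exact Int.floor_nonneg.2 h3
  · rw [Int.floor_lt]
    push_cast at h4 ⊢
    exact h4

open Classical in
/-- **The joint Gaussian law** for (1) the digits of the values `f_ρ (m)`, `0 ≤ m < M`, of real polynomials with
algebraic leading coefficients, (2) the decimal digits of the numbers `x_k + m ^ k √2`, `k = 1, …, r`. -/
theorem result (r : ℕ) (A ε : ℝ) (hε : 0 < ε) (a : Fin r → ℝ) :
    (∀ (α : Fin r → ℝ) (K : Fin r → ℕ), (∀ ρ, IsAlgebraic ℚ (α ρ) ∧ 1 ≤ K ρ) → Independent α K →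
      ∀ (b w : Fin r → ℕ) (F : Fin r → ℕ → ℝ), (∀ ρ, 2 ≤ b ρ ∧ 1 ≤ w ρ ∧ 0 < variance (b ρ) (w ρ) (F ρ)) →
      ∃ L₀ M₀ : ℕ, ∀ M : ℕ, M₀ ≤ M → ∀ f : Fin r → ℝ[X],
      (∀ ρ, (f ρ).natDegree = K ρ ∧ (f ρ).leadingCoeff = α ρ) → ∀ t L : Fin r → ℕ,
      (∀ ρ, L₀ ≤ L ρ ∧ ((t ρ + L ρ : ℕ) : ℝ) ≤ A * log M) →
      |(((range M).filter fun m : ℕ => ∀ ρ, AtMost (b ρ) (w ρ) (F ρ) (t ρ) (L ρ) (a ρ) ((f ρ).eval (m : ℝ))).card : ℝ) / M -
        ∏ ρ, normal (a ρ)| ≤ ε) ∧
    (∀ d : Fin r → ℕ, (∀ ρ, d ρ < 10) →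
      ∃ L₀ M₀ : ℕ, ∀ M : ℕ, M₀ ≤ M → ∀ x : Fin r → ℝ, ∀ t L : Fin r → ℕ,
      (∀ ρ, L₀ ≤ L ρ ∧ ((t ρ + L ρ : ℕ) : ℝ) ≤ A * log M) →
      |(((range M).filter fun m : ℕ => ∀ ρ : Fin r,
          (((Ioc (t ρ) (t ρ + L ρ)).filter fun j =>
            digit 10 j (x ρ + (m : ℝ) ^ ((ρ : ℕ) + 1) * √2) = d ρ).card : ℝ) ≤
            (L ρ : ℝ) / 10 + a ρ * √(9 / 100 * L ρ)).card : ℝ) / M - ∏ ρ, normal (a ρ)| ≤ ε) := by
  have h1 : ∀ (α : Fin r → ℝ) (K : Fin r → ℕ), (∀ ρ, IsAlgebraic ℚ (α ρ) ∧ 1 ≤ K ρ) → Independent α K →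
      ∀ (b w : Fin r → ℕ) (F : Fin r → ℕ → ℝ), (∀ ρ, 2 ≤ b ρ ∧ 1 ≤ w ρ ∧ 0 < variance (b ρ) (w ρ) (F ρ)) →
      ∃ L₀ M₀ : ℕ, ∀ M : ℕ, M₀ ≤ M → ∀ f : Fin r → ℝ[X],
      (∀ ρ, (f ρ).natDegree ≤ K ρ ∧ (f ρ).coeff (K ρ) = α ρ) → ∀ t L : Fin r → ℕ,
      (∀ ρ, L₀ ≤ L ρ ∧ ((t ρ + L ρ : ℕ) : ℝ) ≤ A * log M) →
      |(((range M).filter fun m : ℕ => ∀ ρ, AtMost (b ρ) (w ρ) (F ρ) (t ρ) (L ρ) (a ρ) ((f ρ).eval (m : ℝ))).card : ℝ) / M -
        ∏ ρ, normal (a ρ)| ≤ ε := by
    intro α K hα hind b w F hF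
    obtain ⟨L₀, M₀, h⟩ := Pool.Agent.T9h42.JA.joint_poly (fun ρ => (hα ρ).1) (fun ρ => (hα ρ).2) hind F
      (fun ρ => (by norm_num : 1 ≤ 2).trans (hF ρ).1) (fun ρ => (hF ρ).2.1) (fun ρ => (hF ρ).2.2) a hε A
    refine ⟨L₀, M₀, fun M hM f hf t L htL => ?_⟩
    have hP : ∀ m : ℕ, (∀ ρ, AtMost (b ρ) (w ρ) (F ρ) (t ρ) (L ρ) (a ρ) ((f ρ).eval (m : ℝ))) ↔
        ∀ ρ, ∑ n ∈ range (L ρ), F ρ (Pool.Agent.Y933.KD.wd (b ρ) (w ρ) (t ρ + n) ((f ρ).eval (m : ℝ))) -
          L ρ * Pool.Agent.Y933.KD.mn (b ρ) (w ρ) (F ρ) ≤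
            a ρ * √(Pool.Agent.T9h42.JB.vr (b ρ) (w ρ) (F ρ) * L ρ) := by
      intro m
      refine forall_congr' fun ρ => ?_
      unfold AtMost wordSum
      have e1 : ∑ j ∈ Ico (t ρ) (t ρ + L ρ), F ρ (word (b ρ) (w ρ) j ((f ρ).eval (m : ℝ))) =
          ∑ n ∈ range (L ρ), F ρ (Pool.Agent.Y933.KD.wd (b ρ) (w ρ) (t ρ + n) ((f ρ).eval (m : ℝ))) := by
        rw [Finset.sum_Ico_eq_sum_range, Nat.add_sub_cancel_left]
        exact sum_congr rfl fun n _ => by rw [word_eq ((by norm_num : 1 ≤ 2).trans (hF ρ).1)]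
      rw [e1]
      exact Iff.rfl
    exact h M hM f hf t L (fun ρ => (htL ρ).1) (fun ρ => (htL ρ).2)
      (fun m : ℕ => ∀ ρ, AtMost (b ρ) (w ρ) (F ρ) (t ρ) (L ρ) (a ρ) ((f ρ).eval (m : ℝ))) hP
  refine ⟨fun α K hα hind b w F hF => ?_, fun d hd => ?_⟩
  · obtain ⟨L₀, M₀, h⟩ := h1 α K hα hind b w F hF
    refine ⟨L₀, M₀, fun M hM f hf t L htL => ?_⟩
    refine h M hM f (fun ρ => ⟨(hf ρ).1.le, ?_⟩) t L htL
    rw [← (hf ρ).1, ← (hf ρ).2]
    rfl
  · set F : Fin r → ℕ → ℝ := fun ρ c => if c = d ρ then 1 else 0 with hF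
    have hmean : ∀ ρ, mean 10 1 (F ρ) = 1 / 10 := by
      intro ρ
      unfold mean
      rw [pow_one, pow_one, hF]
      simp only
      rw [Finset.sum_ite_eq', if_pos (mem_range.2 (hd ρ))]
      norm_num
    have hvar : ∀ ρ, variance 10 1 (F ρ) = 9 / 100 := by
      intro ρ
      unfold variance covariance
      rw [hmean, Ico_self, sum_empty, mul_zero, add_zero, Nat.add_zero, pow_one, pow_one]
      have e : ∀ c ∈ range 10, (F ρ (c / 10 ^ 0) - 1 / 10) * (F ρ (c % 10) - 1 / 10) =
          8 / 10 * (if c = d ρ then 1 else 0) + 1 / 100 := by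
        intro c hc
        rw [pow_zero, Nat.div_one, Nat.mod_eq_of_lt (mem_range.1 hc), hF]
        simp only
        split_ifs
        · norm_num
        · norm_num
      rw [sum_congr rfl e, sum_add_distrib, ← mul_sum, Finset.sum_ite_eq',
        if_pos (mem_range.2 (hd ρ)), sum_const, card_range, nsmul_eq_mul]
      norm_num
    have halg : IsAlgebraic ℚ (√2 : ℝ) := by
      refine ⟨X ^ 2 - C 2, X_pow_sub_C_ne_zero (by norm_num) _, ?_⟩
      rw [map_sub, map_pow, aeval_X, aeval_C, Real.sq_sqrt (by norm_num)]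
      norm_num
    have hind : Independent (fun _ : Fin r => √2) (fun ρ => (ρ : ℕ) + 1) := by
      intro n c z hc ρ hρ
      have hρ' : (ρ : ℕ) + 1 = n := hρ
      have e1 : (univ.filter fun σ : Fin r => (σ : ℕ) + 1 = n) = {ρ} := by
        ext σ
        simp only [mem_filter, mem_univ, true_and, mem_singleton]
        constructor
        · intro h
          apply Fin.ext
          omega
        · rintro rfl
          exact hρ
      rw [e1, sum_singleton] at hc
      by_contra h0
      have h2 : (√2 : ℝ) = ((z / c ρ : ℚ) : ℝ) := by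
        have : (c ρ : ℝ) ≠ 0 := by exact_mod_cast h0
        push_cast
        rw [eq_div_iff this]
        linarith
      exact irrational_sqrt_two ⟨_, h2.symm⟩
    obtain ⟨L₀, M₀, h⟩ := h1 (fun _ => √2) (fun ρ => (ρ : ℕ) + 1) (fun ρ => ⟨halg, by simp⟩) hind
      (fun _ => 10) (fun _ => 1) F (fun ρ => ⟨by norm_num, le_rfl, by rw [hvar]; norm_num⟩)
    refine ⟨L₀, M₀, fun M hM x t L htL => ?_⟩
    have key := h M hM (fun ρ => C (√2) * X ^ ((ρ : ℕ) + 1) + C (x ρ)) (fun ρ => ⟨?_, ?_⟩) t L htL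
    · have e3 : ((range M).filter fun m : ℕ => ∀ ρ : Fin r,
          (((Ioc (t ρ) (t ρ + L ρ)).filter fun j =>
            digit 10 j (x ρ + (m : ℝ) ^ ((ρ : ℕ) + 1) * √2) = d ρ).card : ℝ) ≤
            (L ρ : ℝ) / 10 + a ρ * √(9 / 100 * L ρ)) =
          (range M).filter fun m : ℕ => ∀ ρ, AtMost 10 1 (F ρ) (t ρ) (L ρ) (a ρ)
            ((C (√2) * X ^ ((ρ : ℕ) + 1) + C (x ρ)).eval (m : ℝ)) := by
        refine filter_congr fun m _ => forall_congr' fun ρ => ?_
        have ev : (C (√2) * X ^ ((ρ : ℕ) + 1) + C (x ρ)).eval (m : ℝ) = x ρ + (m : ℝ) ^ ((ρ : ℕ) + 1) * √2 := by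
          simp only [eval_add, eval_mul, eval_C, eval_pow, eval_X]
          ring
        rw [ev]
        set y : ℝ := x ρ + (m : ℝ) ^ ((ρ : ℕ) + 1) * √2
        have e2 : (((Ioc (t ρ) (t ρ + L ρ)).filter fun j => digit 10 j y = d ρ).card : ℝ) =
            wordSum 10 1 (F ρ) (t ρ) (L ρ) y := by
          unfold wordSum
          rw [card_filter]
          push_cast
          have e4 : Ioc (t ρ) (t ρ + L ρ) = (Ico (t ρ) (t ρ + L ρ)).image (· + 1) := by
            ext j
            simp only [mem_Ioc, mem_image, mem_Ico]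
            constructor
            · rintro ⟨h5, h6⟩
              exact ⟨j - 1, by omega, by omega⟩
            · rintro ⟨i, h5, rfl⟩
              omega
          rw [e4, sum_image (fun i _ j _ h => by simpa using h)]
          refine sum_congr rfl fun j _ => ?_
          have hword : ((word 10 1 j y : ℕ) : ℤ) = digit 10 (j + 1) y := by
            unfold word digit
            rw [Int.toNat_of_nonneg (Int.emod_nonneg _ (by norm_num)), pow_one]
          rw [hF]
          simp only
          rw [← hword]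
          by_cases h7 : word 10 1 j y = d ρ
          · rw [if_pos h7, if_pos (by exact_mod_cast h7)]
          · rw [if_neg h7, if_neg (by exact_mod_cast h7)]
        unfold AtMost
        rw [hmean, hvar, e2, mul_one_div]
        constructor
        · intro h5
          linarith
        · intro h5
          linarith
      rw [e3]
      exact key
    · refine (natDegree_add_le _ _).trans ?_
      rw [natDegree_C, max_eq_left (Nat.zero_le _)]
      exact natDegree_C_mul_X_pow_le _ _
    · rw [coeff_add, coeff_C_mul, coeff_X_pow, if_pos rfl, mul_one, coeff_C, if_neg (by omega), add_zero]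

end Pool.Agent.Results.MP_175f55_nt.GaussianMultiples
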