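import Pool.Agent.T9h51.MH.Block
import Pool.Agent.T9h51.MH.BlockSparse

/-!
# Every block of `k` digits in `y + m α` with `m < b ^ (k + 1)`

For an irrational number `α`, any real number `y`, a base `b ≥ 3` and a block of `k` digits there is `1 ≤ m < b ^ (k + 1)` such
that the block stands infinitely often in the expansion of `y + m α`. The order `b ^ (k + 1)` is best possible.

The upper bound rests on `Pool.Agent.T9h51.MH.claim`: after a multiplication by a power of `b` the points `m x`,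
`1 ≤ m < b ^ (k + 1)`, meet every interval of length `b ^ (-k)` modulo one.
-/

set_option autoImplicit false

namespace Pool.Agent.Results.MP_175f55_nt.MahlerBlocks

/-- The block `w` of `k` digits in base `b` (`0 ≤ w < b ^ k`, leading zeros allowed) stands at the places
`j + 1, ..., j + k` after the point of `y` for infinitely many `j ≥ 0`. -/
def InfinitelyOften (b k w : ℕ) (y : ℝ) : Prop := {j : ℕ | ⌊y * (b : ℝ) ^ (j + k)⌋ % ((b ^ k : ℕ) : ℤ) = (w : ℤ)}.Infinite

open Pool.Agent.T9h51.MH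

theorem upper {b k : ℕ} (hb : 3 ≤ b) {w : ℕ} (hw : w < b ^ k) {α : ℝ} (hα : Irrational α) (y : ℝ) :
    ∃ m : ℕ, 1 ≤ m ∧ m < b ^ (k + 1) ∧ InfinitelyOften b k w (y + m * α) := by
  have hb0 : (3 : ℝ) ≤ b := by exact_mod_cast hb
  have hN : 1 ≤ b ^ k := Nat.one_le_pow _ _ (by omega)
  -- one `m` for every starting place
  have hone : ∀ i : ℕ, ∃ m : ℕ, 1 ≤ m ∧ m < b ^ (k + 1) ∧ ∃ j : ℕ, i ≤ j ∧
      ⌊(y + m * α) * (b : ℝ) ^ (j + k)⌋ % ((b ^ k : ℕ) : ℤ) = (w : ℤ) := by
    intro i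
    have hx : Irrational ((b : ℝ) ^ i * α) := by
      have h1 : ((b : ℝ) ^ i) = ((b ^ i : ℕ) : ℝ) := by push_cast; rfl
      rw [h1]
      exact hα.natCast_mul (by positivity)
    obtain ⟨s, hs⟩ := claim (b := b) (N := b ^ k) hb hN hx
    obtain ⟨m, hm1, hm2, n, hn1, hn2⟩ := hs ((w : ℝ) / (b : ℝ) ^ k - (b : ℝ) ^ (i + s) * y)
    refine ⟨m, hm1, by rw [pow_succ']; exact hm2, i + s, by omega, ?_⟩
    have hk0 : (0 : ℝ) < (b : ℝ) ^ k := by positivity
    push_cast at hn2
    have hfl : ⌊(y + m * α) * (b : ℝ) ^ (i + s + k)⌋ = (w : ℤ) + n * ((b ^ k : ℕ) : ℤ) := by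
      rw [Int.floor_eq_iff]
      push_cast
      have e1 : (y + m * α) * (b : ℝ) ^ (i + s + k) =
          ((b : ℝ) ^ (i + s) * y + m * ((b : ℝ) ^ s * ((b : ℝ) ^ i * α)) - n) * (b : ℝ) ^ k + n * (b : ℝ) ^ k := by
        rw [pow_add, pow_add]
        ring
      rw [e1]
      have h1 : (w : ℝ) / (b : ℝ) ^ k <
          (b : ℝ) ^ (i + s) * y + m * ((b : ℝ) ^ s * ((b : ℝ) ^ i * α)) - n := by linarith
      have h2 : (b : ℝ) ^ (i + s) * y + m * ((b : ℝ) ^ s * ((b : ℝ) ^ i * α)) - n <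
          ((w : ℝ) + 1) / (b : ℝ) ^ k := by
        rw [add_div]
        linarith
      rw [div_lt_iff₀ hk0] at h1
      rw [lt_div_iff₀ hk0] at h2
      constructor <;> linarith
    rw [hfl, Int.add_mul_emod_self_right]
    exact Int.emod_eq_of_lt (by positivity) (by exact_mod_cast hw)
  -- the pigeonhole principle
  by_contra hcon
  push Not at hcon
  have hfin : ∀ m ∈ Finset.Ico 1 (b ^ (k + 1)),
      {j : ℕ | ⌊(y + m * α) * (b : ℝ) ^ (j + k)⌋ % ((b ^ k : ℕ) : ℤ) = (w : ℤ)}.Finite := by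
    intro m hm
    rw [Finset.mem_Ico] at hm
    exact Set.not_infinite.1 (hcon m hm.1 hm.2)
  have hU := Set.Finite.biUnion (Finset.Ico 1 (b ^ (k + 1))).finite_toSet hfin
  obtain ⟨B, hB⟩ := hU.bddAbove
  obtain ⟨m, hm1, hm2, j, hj, hjw⟩ := hone (B + 1)
  have := hB (Set.mem_biUnion (Finset.mem_coe.2 (Finset.mem_Ico.2 ⟨hm1, hm2⟩)) hjw)
  omega

theorem lower {b k n g : ℕ} (hb : 2 ≤ b) (hk : 1 ≤ k) (hg : g < b) (hgn : g ∣ b ^ n) :
    ∃ α : ℝ, Irrational α ∧ ∀ m : ℕ, m < g * (b ^ k - 1) → ¬ InfinitelyOften b k (b ^ k - 1) (m * α) := by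
  obtain ⟨c, hc⟩ := hgn
  have hirr : Irrational (liouvilleNumber b) := by
    have := (liouville_liouvilleNumber (m := b) hb).irrational
    exact_mod_cast this
  have hc0 : c ≠ 0 := by
    rintro rfl
    rw [mul_zero] at hc
    have : 0 < b ^ n := by positivity
    omega
  refine ⟨c * liouvilleNumber b, hirr.natCast_mul hc0, fun m hm hinf => ?_⟩
  apply hinf
  have h2 := sparse_block (b := b) (k := k) (N := m * c) hb hk
    (blocks_avoid hb hk hg (by rw [mul_comm]; exact hc.symm) hm)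
  refine h2.subset fun j hj => ?_
  simp only [Set.mem_ofPred_eq] at hj ⊢
  rw [← hj]
  push_cast
  congr 2
  ring

/-- **(1)** For every base `b ≥ 3`, every block `w` of `k ≥ 1` digits, every irrational number `α` and every real number `y`
there is an integer `m` with `1 ≤ m < b ^ (k + 1)` such that the block `w` stands infinitely often in the base `b` expansion of
`y + m α`. **(2)** The order of this bound is best possible: if `g < b` divides a power of `b`, there is an irrational number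
`α` such that the block of `k` digits `b - 1` stands only finitely often in the expansions of all `m α` with
`m < g (b ^ k - 1)`. **(3)** For decimal expansions, `b = 10`, this is `m < 8 (10 ^ k - 1)`. **(4)** In particular for every
real number `y`, every block of `k` decimal digits stands infinitely often in one of the numbers `y + m √2`,
`1 ≤ m < 10 ^ (k + 1)`. -/
theorem result :
    (∀ b k : ℕ, 3 ≤ b → 1 ≤ k → ∀ w : ℕ, w < b ^ k → ∀ α : ℝ, Irrational α → ∀ y : ℝ,
      ∃ m : ℕ, 1 ≤ m ∧ m < b ^ (k + 1) ∧ InfinitelyOften b k w (y + m * α)) ∧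
    (∀ b k n g : ℕ, 2 ≤ b → 1 ≤ k → g < b → g ∣ b ^ n → ∃ α : ℝ, Irrational α ∧
      ∀ m : ℕ, m < g * (b ^ k - 1) → ¬ InfinitelyOften b k (b ^ k - 1) (m * α)) ∧
    (∀ k : ℕ, 1 ≤ k → ∃ α : ℝ, Irrational α ∧
      ∀ m : ℕ, m < 8 * (10 ^ k - 1) → ¬ InfinitelyOften 10 k (10 ^ k - 1) (m * α)) ∧
    (∀ k : ℕ, 1 ≤ k → ∀ w : ℕ, w < 10 ^ k → ∀ y : ℝ,
      ∃ m : ℕ, 1 ≤ m ∧ m < 10 ^ (k + 1) ∧ InfinitelyOften 10 k w (y + m * √2)) := by
  refine ⟨fun b k hb _ w hw α hα y => upper hb hw hα y, fun b k n g hb hk hg hgn => lower hb hk hg hgn,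
    fun k hk => lower (n := 3) (by norm_num) hk (by norm_num) (by norm_num), fun k _ w hw y => ?_⟩
  exact upper (by norm_num) hw irrational_sqrt_two y

end Pool.Agent.Results.MP_175f55_nt.MahlerBlocks
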