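import Pool.Agent.T9h51.MH.C5
import Pool.Agent.T9h51.MH.C6
import Pool.Agent.T9h51.MH.C7
import Pool.Agent.T9h51.MH.C8
import Pool.Agent.T9h51.MH.C9
import Pool.Agent.T9h51.MH.Sparse

/-!
# The digits of the multiples of `√2`: the sharp form of Mahler's theorem for the ten decimal digits

For every digit `d` we determine the smallest `K d` such that for every irrational number `α` the digit `d` stands infinitely
often in the decimal expansion of at least one of `α, 2 α, ..., K d α`. Ten to fifteen of these multiples are enough.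

The upper bounds are proved with finite certificates (`Pool.Agent.T9h51.MH.main`): a partition of the circle into intervals on
which some multiple has the digit `d` in the next places and into intervals on which the map `x ↦ 10 x` has only eventually
periodic orbits. The lower bounds are attained by `c ∑ 10 ^ (-i!)` for suitable integers `c`.
-/

set_option autoImplicit false

namespace Pool.Agent.Results.MP_175f55_nt.SharpMahlerConstants

/-- The `j`-th decimal digit of `y` after the point, `j ≥ 1`. -/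
noncomputable def digit (y : ℝ) (j : ℕ) : ℤ := ⌊y * 10 ^ j⌋ % 10

/-- The digit `d` stands infinitely often in the decimal expansion of `y`. -/
def InfinitelyOften (d : ℕ) (y : ℝ) : Prop := {j : ℕ | 1 ≤ j ∧ digit y j = d}.Infinite

/-- The constants. -/
def K : ℕ → ℕ
  | 0 => 72
  | 1 => 32
  | 2 => 35
  | 3 => 24
  | 4 => 32
  | 5 => 32
  | 6 => 24
  | 7 => 35
  | 8 => 32
  | 9 => 72
  | _ => 0

/-- The multipliers which are enough. -/
def M : ℕ → List ℕ
  | 0 => [6, 17, 20, 21, 24, 26, 31, 33, 38, 42, 46, 56, 59, 69, 72]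
  | 1 => [1, 2, 3, 4, 5, 8, 15, 16, 25, 32]
  | 2 => [5, 7, 12, 15, 17, 19, 21, 22, 23, 27, 31, 33, 35]
  | 3 => [3, 4, 5, 6, 8, 9, 12, 15, 16, 18, 24]
  | 4 => [3, 6, 7, 9, 11, 12, 13, 17, 23, 24, 25, 28, 32]
  | 5 => [3, 6, 7, 9, 11, 12, 13, 17, 23, 24, 25, 28, 32]
  | 6 => [3, 4, 5, 6, 8, 9, 12, 15, 16, 18, 24]
  | 7 => [5, 7, 12, 15, 17, 19, 21, 22, 23, 27, 31, 33, 35]
  | 8 => [1, 2, 3, 4, 5, 8, 15, 16, 25, 32]
  | 9 => [6, 17, 20, 21, 24, 26, 31, 33, 38, 42, 46, 56, 59, 69, 72]
  | _ => []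

open Pool.Agent.T9h51.MH

theorem inf_iff (d : ℕ) (y : ℝ) : InfinitelyOften d y ↔ {j : ℕ | ⌊y * (10 : ℝ) ^ (j + 1)⌋ % 10 = (d : ℤ)}.Infinite := by
  unfold InfinitelyOften digit
  constructor
  · intro h hfin
    apply h
    refine (hfin.image (fun j => j + 1)).subset ?_
    rintro j ⟨hj1, hj⟩
    refine ⟨j - 1, ?_, by simp only; omega⟩
    have : j - 1 + 1 = j := by omega
    simp only [Set.mem_ofPred_eq, this]
    exact hj
  · intro h hfin
    apply h
    have h2 : ((fun j => j + 1) ⁻¹' {j : ℕ | 1 ≤ j ∧ ⌊y * 10 ^ j⌋ % 10 = (d : ℤ)}).Finite :=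
      hfin.preimage (fun a _ c _ hac => by simpa using hac)
    refine h2.subset fun j hj => ?_
    exact ⟨by simp, hj⟩

theorem inf_neg {d : ℕ} (hd : d < 10) {y : ℝ} (hy : Irrational y) : InfinitelyOften d (-y) ↔ InfinitelyOften (9 - d) y := by
  rw [inf_iff, inf_iff]
  have h1 : {j : ℕ | ⌊-y * (10 : ℝ) ^ (j + 1)⌋ % 10 = (d : ℤ)} =
      {j : ℕ | ⌊y * (10 : ℝ) ^ (j + 1)⌋ % 10 = ((9 - d : ℕ) : ℤ)} := by
    ext j
    simp only [Set.mem_ofPred_eq]
    have h2 : Irrational (y * (10 : ℝ) ^ (j + 1)) := by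
      have h3 : ((10 : ℝ) ^ (j + 1)) = ((10 ^ (j + 1) : ℕ) : ℝ) := by push_cast; rfl
      rw [h3]
      exact hy.mul_natCast (by positivity)
    have h4 := digit_neg _ h2
    rw [neg_mul, h4]
    omega
  rw [h1]

theorem upper {d D : ℕ} {L : List ℕ} {V : List Vt} {C : List (ℕ × ℕ × ℕ × ℕ)} (h : check 10 d D L V C = true) {α : ℝ}
    (hα : Irrational α) : ∃ m ∈ L, InfinitelyOften d (m * α) := by
  obtain ⟨m, hm, h1⟩ := main (b := 10) (by norm_num) h hα
  exact ⟨m, hm, (inf_iff _ _).2 (by exact_mod_cast h1)⟩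

theorem upper_neg {d D : ℕ} {L : List ℕ} {V : List Vt} {C : List (ℕ × ℕ × ℕ × ℕ)} (hd : d < 10) (hL : 0 ∉ L)
    (h : check 10 d D L V C = true) {α : ℝ} (hα : Irrational α) : ∃ m ∈ L, InfinitelyOften (9 - d) (m * α) := by
  obtain ⟨m, hm, h1⟩ := upper h hα.neg
  refine ⟨m, hm, ?_⟩
  rw [mul_neg, inf_neg hd] at h1
  · exact h1
  · refine hα.natCast_mul ?_
    rintro rfl
    exact hL hm

theorem lower {c d k : ℕ} (hc : c ≠ 0) (hd : d ≠ 0) (h1 : c * k ≤ 9999)
    (h : ∀ m, m < k → ∀ e < 4, c * m / 10 ^ e % 10 ≠ d) :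
    ∃ α : ℝ, Irrational α ∧ ∀ m : ℕ, m < k → ¬ InfinitelyOften d (m * α) := by
  have hirr : Irrational (liouvilleNumber 10) := by
    have := (liouville_liouvilleNumber (m := 10) (by norm_num)).irrational
    exact_mod_cast this
  refine ⟨c * liouvilleNumber 10, hirr.natCast_mul hc, fun m hm hinf => ?_⟩
  rw [inf_iff] at hinf
  apply hinf
  have h2 := sparse (N := c * m) (d := d) (by nlinarith) hd (h m hm)
  refine h2.subset fun j hj => ?_
  simp only [Set.mem_ofPred_eq] at hj ⊢
  rw [← hj]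
  push_cast
  congr 2
  ring

theorem lower_neg {d k : ℕ} (hd : d < 10) (h : ∃ α : ℝ, Irrational α ∧ ∀ m : ℕ, m < k → ¬ InfinitelyOften d (m * α)) :
    ∃ α : ℝ, Irrational α ∧ ∀ m : ℕ, 1 ≤ m → m < k → ¬ InfinitelyOften (9 - d) (m * α) := by
  obtain ⟨α, hα, h1⟩ := h
  refine ⟨-α, hα.neg, fun m hm hmk hinf => h1 m hmk ?_⟩
  have h2 : Irrational ((m : ℝ) * α) := hα.natCast_mul (by omega)
  rw [mul_neg, inf_neg (by omega) h2] at hinf
  have h3 : 9 - (9 - d) = d := by omega
  rwa [h3] at hinf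

/-- **(1)** For every irrational number `α` and every decimal digit `d`, at least one of the numbers `m α`, `m ∈ M d`, has the
digit `d` infinitely often in its decimal expansion. Here `M d` has at most `15` elements and is contained in `[1, K d]`; so
there is such an `m ≤ K d`. **(2)** The constant `K d` is best possible: for every digit `d` there is an irrational number `α`
such that `d` stands only finitely often in `α, 2 α, ..., (K d - 1) α`. **(3)** In particular the statement (1) holds for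
`α = √2`. -/
theorem result :
    (∀ α : ℝ, Irrational α → ∀ d : ℕ, d < 10 → ∃ m ∈ M d, InfinitelyOften d (m * α)) ∧
    (∀ d : ℕ, d < 10 → (M d).length ≤ 15 ∧ ∀ m ∈ M d, 1 ≤ m ∧ m ≤ K d) ∧
    (∀ d : ℕ, d < 10 → ∃ α : ℝ, Irrational α ∧ ∀ m : ℕ, 1 ≤ m → m < K d → ¬ InfinitelyOften d (m * α)) ∧
    (∀ d : ℕ, d < 10 → ∃ m ∈ M d, InfinitelyOften d (m * √2)) := by
  have h1 : ∀ α : ℝ, Irrational α → ∀ d : ℕ, d < 10 → ∃ m ∈ M d, InfinitelyOften d (m * α) := by
    intro α hα d hd
    interval_cases d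
    · exact upper_neg (d := 9) (by norm_num) (by decide) check9 hα
    · exact upper_neg (d := 8) (by norm_num) (by decide) check8 hα
    · exact upper_neg (d := 7) (by norm_num) (by decide) check7 hα
    · exact upper_neg (d := 6) (by norm_num) (by decide) check6 hα
    · exact upper_neg (d := 5) (by norm_num) (by decide) check5 hα
    · exact upper check5 hα
    · exact upper check6 hα
    · exact upper check7 hα
    · exact upper check8 hα
    · exact upper check9 hα
  have h4 : ∃ α : ℝ, Irrational α ∧ ∀ m : ℕ, m < 32 → ¬ InfinitelyOften 4 (m * α) :=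
    lower (c := 125) (by norm_num) (by norm_num) (by norm_num) (by decide)
  have h6 : ∃ α : ℝ, Irrational α ∧ ∀ m : ℕ, m < 24 → ¬ InfinitelyOften 6 (m * α) :=
    lower (c := 25) (by norm_num) (by norm_num) (by norm_num) (by decide)
  have h7 : ∃ α : ℝ, Irrational α ∧ ∀ m : ℕ, m < 35 → ¬ InfinitelyOften 7 (m * α) :=
    lower (c := 2) (by norm_num) (by norm_num) (by norm_num) (by decide)
  have h8 : ∃ α : ℝ, Irrational α ∧ ∀ m : ℕ, m < 32 → ¬ InfinitelyOften 8 (m * α) :=
    lower (c := 25) (by norm_num) (by norm_num) (by norm_num) (by decide)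
  have h9 : ∃ α : ℝ, Irrational α ∧ ∀ m : ℕ, m < 72 → ¬ InfinitelyOften 9 (m * α) :=
    lower (c := 125) (by norm_num) (by norm_num) (by norm_num) (by decide)
  have weak : ∀ {d k : ℕ}, (∃ α : ℝ, Irrational α ∧ ∀ m : ℕ, m < k → ¬ InfinitelyOften d (m * α)) →
      ∃ α : ℝ, Irrational α ∧ ∀ m : ℕ, 1 ≤ m → m < k → ¬ InfinitelyOften d (m * α) := by
    rintro d k ⟨α, hα, h⟩
    exact ⟨α, hα, fun m _ hm => h m hm⟩
  refine ⟨h1, ?_, ?_, fun d hd => h1 _ irrational_sqrt_two d hd⟩
  · decide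
  · intro d hd
    interval_cases d
    · exact lower_neg (d := 9) (by norm_num) h9
    · exact lower_neg (d := 8) (by norm_num) h8
    · exact lower_neg (d := 7) (by norm_num) h7
    · exact lower_neg (d := 6) (by norm_num) h6
    · exact weak h4
    · exact lower_neg (d := 4) (by norm_num) h4
    · exact weak h6
    · exact weak h7
    · exact weak h8
    · exact weak h9

end Pool.Agent.Results.MP_175f55_nt.SharpMahlerConstants
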