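import Pool.Agent.T9h51.TR.Arc
import Pool.Agent.T9h51.TR.Game

/-!
Every digit, and every block of digits, in the translates `α + j / M` of an irrational number by a few
rational numbers, with the best possible number of translates for single digits; the case `√2`.
-/

set_option autoImplicit false

namespace Pool.Agent.Results.MP_175f55_nt.Translates

/-- The block `w` of `k` digits (`0 ≤ w < b ^ k`, leading zeros allowed) stands at the places
`j + 1, …, j + k` after the point of the base `b` expansion of `y`. -/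
def Stands (b k w : ℕ) (y : ℝ) (j : ℕ) : Prop := ⌊y * (b : ℝ) ^ (j + k)⌋ % (b : ℤ) ^ k = w

/-- The block `w` of `k` digits stands infinitely often in the base `b` expansion of `y`. -/
def InfinitelyOften (b k w : ℕ) (y : ℝ) : Prop := {j : ℕ | Stands b k w y j}.Infinite

/-- (1) Let `b ≥ 2`, `α` irrational. Every digit `d < b` stands infinitely often in the base `b`
expansion of one of the `b - 1` numbers `α + j / (b - 1)`, `0 ≤ j < b - 1`.

(2) Every block of `k ≥ 1` digits stands infinitely often in one of the numbers `α + j / M`,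
`0 ≤ j < M`, if `M` is prime to `b` and `M > b ^ k - b ^ (k - 1)`.

(3) Conversely: let `f_i(y) = a_i y + c_i`, `i = 1, …, s`, with integers `a_i` prime to `b` and real
`c_i`. If `s < (b - 1) ^ k (k - 1) ^ (k - 1) / k ^ k` (this is `s < b - 1` for `k = 1`), then for every
block `w` of `k` digits there is an irrational `α` such that `w` stands nowhere (after the point) in any
of the numbers `f_i(α)`. In particular the number `b - 1` in (1) is best possible.

(4) Each decimal digit stands infinitely often in one of the nine numbers `√2 + j / 9`, `0 ≤ j ≤ 8`, and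
every block of `k ≥ 2` decimal digits in one of the numbers `√2 + j / M`, `0 ≤ j < M`,
`M = 9 * 10 ^ (k - 1) + 1`. -/
theorem result :
    (∀ b : ℕ, 2 ≤ b → ∀ d < b, ∀ α : ℝ, Irrational α →
      ∃ j : ℕ, j < b - 1 ∧ InfinitelyOften b 1 d (α + (j : ℝ) / ((b : ℝ) - 1))) ∧
    (∀ b k M : ℕ, 2 ≤ b → 1 ≤ k → M.Coprime b → b ^ k - b ^ (k - 1) < M → ∀ w < b ^ k,
      ∀ α : ℝ, Irrational α → ∃ j : ℕ, j < M ∧ InfinitelyOften b k w (α + (j : ℝ) / M)) ∧
    (∀ b k s : ℕ, 2 ≤ b → 1 ≤ k → s * k ^ k < (b - 1) ^ k * (k - 1) ^ (k - 1) → ∀ w < b ^ k,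
      ∀ (a : Fin s → ℤ) (c : Fin s → ℝ), (∀ i, IsCoprime (a i) (b : ℤ)) →
      ∃ α : ℝ, Irrational α ∧ ∀ (i : Fin s) (j : ℕ), ¬ Stands b k w (a i * α + c i) j) ∧
    (∀ d < 10, ∃ j : ℕ, j < 9 ∧ InfinitelyOften 10 1 d (√2 + (j : ℝ) / 9)) ∧
    (∀ k : ℕ, 2 ≤ k → ∀ w < 10 ^ k, ∃ j : ℕ, j < 9 * 10 ^ (k - 1) + 1 ∧
      InfinitelyOften 10 k w (√2 + (j : ℝ) / (9 * 10 ^ (k - 1) + 1))) := by
  have h1 : ∀ b : ℕ, 2 ≤ b → ∀ d < b, ∀ α : ℝ, Irrational α →
      ∃ j : ℕ, j < b - 1 ∧ InfinitelyOften b 1 d (α + (j : ℝ) / ((b : ℝ) - 1)) :=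
    fun b hb d hd α hα => Pool.Agent.T9h51.TR.digit_translates hb hα hd
  have h2 : ∀ b k M : ℕ, 2 ≤ b → 1 ≤ k → M.Coprime b → b ^ k - b ^ (k - 1) < M → ∀ w < b ^ k,
      ∀ α : ℝ, Irrational α → ∃ j : ℕ, j < M ∧ InfinitelyOften b k w (α + (j : ℝ) / M) := by
    intro b k M hb hk hM hM2 w hw α hα
    exact Pool.Agent.T9h51.TR.block_translates hb hM hk (by omega) hα hw
  refine ⟨h1, h2, ?_, ?_, ?_⟩
  · intro b k s hb hk hs w _ a c ha
    obtain ⟨α, hα, h⟩ := Pool.Agent.T9h51.TR.avoid_nat hb w hk s hs a ha c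
    exact ⟨α, hα, fun i j hj => h i j hj⟩
  · intro d hd
    obtain ⟨j, hj, h⟩ := h1 10 (by norm_num) d hd (√2) irrational_sqrt_two
    refine ⟨j, by omega, ?_⟩
    have e1 : ((10 : ℕ) : ℝ) - 1 = 9 := by norm_num
    rwa [e1] at h
  · intro k hk w hw
    obtain ⟨t, rfl⟩ : ∃ t, k = t + 2 := ⟨k - 2, by omega⟩
    have e1 : t + 2 - 1 = t + 1 := by omega
    rw [e1]
    have hcop : Nat.Coprime (9 * 10 ^ (t + 1) + 1) 10 := by
      have e2 : 9 * 10 ^ (t + 1) + 1 = 1 + 10 * (9 * 10 ^ t) := by ring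
      rw [e2]
      simp
    have e3 : 10 ^ (t + 2) = 10 * 10 ^ (t + 1) := by ring
    obtain ⟨j, hj, h⟩ := h2 10 (t + 2) (9 * 10 ^ (t + 1) + 1) (by norm_num) (by omega) hcop
      (by rw [e1]; omega) w hw (√2) irrational_sqrt_two
    refine ⟨j, hj, ?_⟩
    push_cast at h
    exact h

end Pool.Agent.Results.MP_175f55_nt.Translates
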